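import Pool.Agent.X11.Ter

/-!
# Question Q2 of MP_26251e_nt is answered in the negative (p = 3, m = 8)
-/

namespace Pool.Agent.Results.MP_26251e_nt.TernaryDisproof

open PowerSeries

/-- `d p m n` is the coefficient of `x^n` in
`(1-x)^{-m} ∏_{j ≥ 0} (1-x^{p^j})^{-(p-1)m}` over the integers.  The factors with `j > n` are
`1 + O(x^{n+1})`, so they do not influence this coefficient and the product is cut at `j = n`. -/
noncomputable def d (p m n : ℕ) : ℤ :=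
  coeff n ((invOfUnit (1 - X : ℤ⟦X⟧) 1) ^ m *
    ∏ j ∈ Finset.range (n + 1), (invOfUnit (1 - X ^ (p ^ j) : ℤ⟦X⟧) 1) ^ ((p - 1) * m))

/-- `D p m n` is the `p`-adic valuation of `d_m(p^2 n) - d_m(n)`, with value `⊤` for `0`. -/
noncomputable def D (p m n : ℕ) : ℕ∞ := emultiplicity (p : ℤ) (d p m (p ^ 2 * n) - d p m n)

lemma bound (m n : ℕ) (hm : m % 9 = 8) (hn : 0 < n) :
    ((padicValNat 3 n + 4 : ℕ) : ℕ∞) ≤ D 3 m n := by
  obtain ⟨s, t, ht, rfl⟩ := Nat.exists_eq_pow_mul_and_not_dvd hn.ne' 3 (by norm_num)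
  have hval : padicValNat 3 (3 ^ s * t) = s := by
    have : Fact (Nat.Prime 3) := ⟨Nat.prime_three⟩
    rw [padicValNat.mul (by positivity) (by rintro rfl; simp at ht), padicValNat.prime_pow,
      padicValNat.eq_zero_of_not_dvd ht, add_zero]
  rw [hval, D, ← pow_dvd_iff_le_emultiplicity]
  exact X11.ColPart.ternary_dvd m s t hm

theorem result :
    (∀ m n : ℕ, m % 9 = 8 → 0 < n → ((padicValNat 3 n + 4 : ℕ) : ℕ∞) ≤ D 3 m n) ∧
    ¬ (∀ p : ℕ, p.Prime → 3 ≤ p → ∀ m : ℕ, 1 ≤ m → m % p = p - 1 →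
      (∀ n : ℕ, 0 < n →
        ((padicValNat p n + 4 - (if p = 3 then 1 else 0) : ℕ) : ℕ∞) ≤ D p m n) ∧
      {n : ℕ | 0 < n ∧
        D p m n = ((padicValNat p n + 4 - (if p = 3 then 1 else 0) : ℕ) : ℕ∞)}.Infinite) := by
  refine ⟨bound, fun h => ?_⟩
  obtain ⟨-, h4⟩ := h 3 Nat.prime_three le_rfl 8 (by norm_num) (by norm_num)
  obtain ⟨n, hn, hD⟩ := h4.nonempty
  have hb := bound 8 n rfl hn
  rw [hD, if_pos rfl] at hb
  have := ENat.natCast_le_natCast.mp hb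
  omega

end Pool.Agent.Results.MP_26251e_nt.TernaryDisproof
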